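import Pool.Agent.Y883.GJ.Stm
import Pool.Agent.Helper112.MultLS

/-!
# Project GJ: characters of small conductor
-/

set_option autoImplicit false

namespace Pool.Agent.Y185.GJ

open Finset Pool.Agent.Y883.GJ
open Pool.Agent.H807R2.Dav (ee)

theorem norm_ee (x : ℝ) : ‖ee x‖ = 1 := by
  unfold ee
  have h : (2 * (Real.pi : ℂ) * Complex.I * (x : ℂ)) = ((2 * Real.pi * x : ℝ) : ℂ) * Complex.I := by
    push_cast
    ring
  rw [h]
  exact Complex.norm_exp_ofReal_mul_I _

theorem ee_add (x y : ℝ) : ee (x + y) = ee x * ee y := by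
  unfold ee
  rw [← Complex.exp_add]
  congr 1
  push_cast
  ring

theorem std_eq (r : ℕ) [NeZero r] (a : ZMod r) (n : ℕ) :
    ZMod.stdAddChar (a * (n : ZMod r)) = ee (n * ((a.val : ℝ) / r)) := by
  have h1 : a * (n : ZMod r) = (((a.val * n : ℕ) : ℤ) : ZMod r) := by
    rw [Int.cast_natCast, Nat.cast_mul, ZMod.natCast_zmod_val]
  rw [h1, ZMod.stdAddChar_coe]
  unfold ee
  congr 1
  push_cast
  ring

theorem smallC : SmallCStm := by
  intro q N _ F T₁ T₂ h1 h2 χ η
  have hr : NeZero χ.conductor := ⟨DirichletCharacter.conductor_ne_zero χ⟩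
  set r : ℕ := χ.conductor with hrdef
  set ψ : DirichletCharacter ℂ χ.conductor := χ.primitiveCharacter with hψ
  have hprim : ψ.IsPrimitive := DirichletCharacter.primitiveCharacter_isPrimitive χ
  have hinv : (ψ⁻¹).IsPrimitive := by
    rw [DirichletCharacter.isPrimitive_def, DirichletCharacter.conductor_inv]
    exact hprim
  have hr0 : (0 : ℝ) < r := by exact_mod_cast Nat.pos_of_ne_zero hr.out
  have hsq : 0 < Real.sqrt r := Real.sqrt_pos.2 hr0
  -- the primitive character
  have hmain : ‖∑ n ∈ Icc 1 N, (F n * ee (n * η)) * ψ (n : ZMod χ.conductor)‖ ≤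
      Real.sqrt r * T₁ := by
    have h3 := Pool.Agent.Helper112.MLS.sum_char_T χ.conductor N (fun n => F n * ee (n * η)) hprim
    have h4 : ‖∑ a : ZMod χ.conductor, ψ⁻¹ a * Pool.Agent.Helper112.MLS.T χ.conductor N (fun n => F n * ee (n * η)) a‖ ≤
        r * T₁ := by
      have h5 : ∀ a : ZMod χ.conductor,
          ‖ψ⁻¹ a * Pool.Agent.Helper112.MLS.T χ.conductor N (fun n => F n * ee (n * η)) a‖ ≤ T₁ := by
        intro a
        have h6 : Pool.Agent.Helper112.MLS.T χ.conductor N (fun n => F n * ee (n * η)) a =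
            ∑ n ∈ Icc 1 N, F n * ee (n * (η + (a.val : ℝ) / r)) := by
          unfold Pool.Agent.Helper112.MLS.T
          refine Finset.sum_congr rfl fun n _ => ?_
          rw [std_eq, mul_assoc, ← ee_add, ← mul_add]
        rw [norm_mul, h6]
        have h7 := h1 (η + (a.val : ℝ) / r)
        have h8 := DirichletCharacter.norm_le_one ψ⁻¹ a
        calc ‖ψ⁻¹ a‖ * ‖∑ n ∈ Icc 1 N, F n * ee (n * (η + (a.val : ℝ) / r))‖ ≤
              1 * ‖∑ n ∈ Icc 1 N, F n * ee (n * (η + (a.val : ℝ) / r))‖ :=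
              mul_le_mul_of_nonneg_right h8 (norm_nonneg _)
          _ ≤ T₁ := by rw [one_mul]; exact h7
      refine (norm_sum_le _ _).trans ((Finset.sum_le_sum fun a _ => h5 a).trans ?_)
      rw [Finset.sum_const, Finset.card_univ, ZMod.card, nsmul_eq_mul]
    have h9 : ‖gaussSum ψ⁻¹ (ZMod.stdAddChar : AddChar (ZMod χ.conductor) ℂ)‖ = Real.sqrt r := by
      have h10 := Pool.Agent.Helper112.MLS.norm_gauss χ.conductor hinv
      rw [← h10, Real.sqrt_sq (norm_nonneg _)]
    rw [h3, norm_mul, h9] at h4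
    have h10 : (r : ℝ) * T₁ = (Real.sqrt r * T₁) * Real.sqrt r := by
      have := Real.mul_self_sqrt hr0.le
      linear_combination (-T₁) * this
    rw [h10] at h4
    exact le_of_mul_le_mul_right h4 hsq
  -- the other terms
  have hcs : cs q N F η χ = ∑ n ∈ Icc 1 N, (F n * ee (n * η)) * ψ (n : ZMod χ.conductor) -
      ∑ n ∈ (Icc 1 N).filter (fun n => ¬ n.Coprime q),
        (F n * ee (n * η)) * ψ (n : ZMod χ.conductor) := by
    rw [← Finset.sum_filter_add_sum_filter_not (Icc 1 N) (fun n => n.Coprime q)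
      (fun n => (F n * ee (n * η)) * ψ (n : ZMod χ.conductor)), add_sub_cancel_right]
    unfold cs
    rw [← Finset.sum_filter_add_sum_filter_not (Icc 1 N) (fun n => n.Coprime q)]
    have h3 : ∑ n ∈ (Icc 1 N).filter (fun n => ¬ n.Coprime q), F n * χ (n : ZMod q) * ee (n * η) =
        0 := by
      refine Finset.sum_eq_zero fun n hn => ?_
      rw [Finset.mem_filter] at hn
      have : χ (n : ZMod q) = 0 := by
        apply χ.map_nonunit
        rw [ZMod.isUnit_iff_coprime]
        exact hn.2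
      rw [this, mul_zero, zero_mul]
    rw [h3, add_zero]
    refine Finset.sum_congr rfl fun n hn => ?_
    rw [Finset.mem_filter] at hn
    have h4 := DirichletCharacter.primitiveCharacter_apply_of_isCoprime χ (a := (n : ℤ))
      (Nat.isCoprime_iff_coprime.2 hn.2)
    rw [Int.cast_natCast, Int.cast_natCast] at h4
    rw [← h4]
    ring
  have hrest : ‖∑ n ∈ (Icc 1 N).filter (fun n => ¬ n.Coprime q),
        (F n * ee (n * η)) * ψ (n : ZMod χ.conductor)‖ ≤ T₂ := by
    refine (norm_sum_le _ _).trans (le_trans (Finset.sum_le_sum fun n _ => ?_) h2)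
    rw [norm_mul, norm_mul, norm_ee, mul_one]
    exact mul_le_of_le_one_right (norm_nonneg _) (DirichletCharacter.norm_le_one _ _)
  rw [hcs]
  exact (norm_sub_le _ _).trans (add_le_add hmain hrest)

end Pool.Agent.Y185.GJ
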